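import Pool.Agent.Q245.Yam.Mat
import Pool.Agent.Y342.SK.Sym

/-!
# The conference matrix of the projective line in two blocks, and Hadamard matrices of order
`4 (q + 2)`
-/

set_option autoImplicit false
set_option maxHeartbeats 4000000

namespace Pool.Agent.Q245.Yam

open Finset Matrix
open Pool.Agent.H108R3.Had (HasHad)
open Pool.Agent.TH432.Had (sum_chi chi_neg char_ne_two chi_sq chi_neg_one)

section field

variable {F : Type} [Field F] [Fintype F] [DecidableEq F]

/-- representative of a point of the projective line -/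
def vec : Option F → F × F
  | none => (1, 0)
  | some x => (x, 1)

/-- determinant -/
def dt (u w : F × F) : F := u.1 * w.2 - u.2 * w.1

/-- the conference matrix -/
def C (p p' : Option F) : ℤ := quadraticChar F (dt (vec p) (vec p'))

/-- the involution -/
def sig (δ : F) : Option F → Option F
  | none => some 0
  | some x => if x = 0 then none else some (-δ / x)

/-- the factor -/
def lam (δ : F) : Option F → F
  | none => 1
  | some x => if x = 0 then -δ else x

theorem C_self (p : Option F) : C p p = 0 := by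
  have : dt (vec p) (vec p) = 0 := by unfold dt; ring
  rw [C, this]; simp

theorem C_ne {p p' : Option F} (h : p ≠ p') : C p p' = 1 ∨ C p p' = -1 := by
  apply quadraticChar_dichotomy
  rcases p with _ | x <;> rcases p' with _ | y
  · exact absurd rfl h
  · simp [dt, vec]
  · simp [dt, vec]
  · simp only [dt, vec, mul_one, one_mul, ne_eq]
    rw [sub_eq_zero]
    exact fun h' => h (by rw [h'])

theorem C_symm (h4 : Fintype.card F % 4 = 1) (p p' : Option F) : C p' p = C p p' := by
  have : dt (vec p') (vec p) = - dt (vec p) (vec p') := by unfold dt; ring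
  rw [C, this, chi_neg h4, C]

theorem C_mul (h4 : Fintype.card F % 4 = 1) (p p' : Option F) :
    ∑ z, C p z * C p' z = if p = p' then (Fintype.card F : ℤ) else 0 := by
  have hF := char_ne_two h4
  have hsum : ∀ x : F, ∑ z, quadraticChar F (x - z) = 0 := by
    intro x
    have h7 := Equiv.sum_comp (Equiv.subLeft x) (fun w => quadraticChar F w)
    simp only [Equiv.subLeft_apply] at h7
    rw [h7, quadraticChar_sum_zero hF]
  have h1 : ∀ z : F, C none (some z) = 1 := by intro z; simp [C, dt, vec]
  have h2 : ∀ x z : F, C (some x) (some z) = quadraticChar F (x - z) := by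
    intro x z; simp [C, dt, vec]
  have h3 : ∀ x : F, C (some x) none = 1 := by
    intro x
    have : dt (vec (some x)) (vec none) = (-1 : F) := by simp [dt, vec]
    rw [C, this, chi_neg_one h4]
  have h0 : C (none : Option F) none = 0 := C_self _
  rw [Fintype.sum_option]
  rcases p with _ | x <;> rcases p' with _ | y
  · simp [h0, h1]
  · simp only [h0, h1, h2, zero_mul, one_mul, zero_add, reduceCtorEq, if_false]
    exact hsum y
  · simp only [h0, h1, h2, mul_zero, mul_one, zero_add, reduceCtorEq, if_false]
    exact hsum x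
  · simp only [h2, h3, sum_chi h4, mul_one, Option.some.injEq]
    ring

variable (δ : F)

theorem tau (p : Option F) : (-δ * (vec p).2, (vec p).1) =
    (lam δ p * (vec (sig δ p)).1, lam δ p * (vec (sig δ p)).2) := by
  rcases p with _ | x
  · simp [vec, lam, sig]
  · by_cases hx : x = 0
    · subst hx
      simp [vec, lam, sig]
    · simp only [vec, lam, sig, hx, if_false, mul_one, Prod.mk.injEq, and_true]
      field_simp

theorem lam_ne (hδ : δ ≠ 0) (p : Option F) : lam δ p ≠ 0 := by
  rcases p with _ | x
  · simp [lam]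
  · simp only [lam]
    split_ifs with h
    · exact neg_ne_zero.2 hδ
    · exact h

theorem sig_sig (hδ : δ ≠ 0) (p : Option F) : sig δ (sig δ p) = p := by
  rcases p with _ | x
  · simp [sig]
  · by_cases hx : x = 0
    · subst hx; simp [sig]
    · have h1 : -δ / x ≠ 0 := div_ne_zero (neg_ne_zero.2 hδ) hx
      simp only [sig, hx, h1, if_false, Option.some.injEq]
      field_simp

theorem sig_ne (h4 : Fintype.card F % 4 = 1) (hδ : quadraticChar F δ = -1) (p : Option F) :
    sig δ p ≠ p := by
  rcases p with _ | x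
  · simp [sig]
  · by_cases hx : x = 0
    · subst hx; simp [sig]
    · simp only [sig, hx, if_false, ne_eq, Option.some.injEq]
      intro h
      have h1 : -δ = x * x := by
        rw [div_eq_iff hx] at h
        exact h
      have h2 := chi_neg h4 δ
      rw [h1, map_mul, chi_sq hx, hδ] at h2
      norm_num at h2

/-- the sign of the factor -/
def sn (p : Option F) : ℤ := quadraticChar F (lam δ p)

theorem sn_sq (hδ : δ ≠ 0) (p : Option F) : sn δ p * sn δ p = 1 := chi_sq (lam_ne δ hδ p)

theorem sn_cases (hδ : δ ≠ 0) (p : Option F) : sn δ p = 1 ∨ sn δ p = -1 :=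
  quadraticChar_dichotomy (lam_ne δ hδ p)

theorem rel1 (hδ : quadraticChar F δ = -1) (p p' : Option F) :
    C (sig δ p) (sig δ p') = - (sn δ p * sn δ p' * C p p') := by
  have hδ0 : δ ≠ 0 := by rintro rfl; simp at hδ
  have h1 := Prod.ext_iff.1 (tau δ p)
  have h2 := Prod.ext_iff.1 (tau δ p')
  simp only at h1 h2
  have h3 : lam δ p * lam δ p' * dt (vec (sig δ p)) (vec (sig δ p')) =
      δ * dt (vec p) (vec p') := by
    unfold dt
    linear_combination (-(vec p').1) * h1.1 - (lam δ p * (vec (sig δ p)).1) * h2.2 +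
      (lam δ p * (vec (sig δ p)).2) * h2.1 + (-δ * (vec p').2) * h1.2
  have h4 := congrArg (quadraticChar F) h3
  rw [map_mul, map_mul, map_mul, hδ] at h4
  have h5 := sn_sq δ hδ0 p
  have h6 := sn_sq δ hδ0 p'
  unfold sn at h5 h6 ⊢
  unfold C
  linear_combination (quadraticChar F (lam δ p) * quadraticChar F (lam δ p')) * h4 -
    (quadraticChar F (lam δ p') * quadraticChar F (lam δ p') * quadraticChar F (dt (vec (sig δ p)) (vec (sig δ p')))) * h5 - (quadraticChar F (dt (vec (sig δ p)) (vec (sig δ p')))) * h6

theorem rel2 (h4 : Fintype.card F % 4 = 1) (p p' : Option F) :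
    sn δ p * C (sig δ p) p' = sn δ p' * C p (sig δ p') := by
  have h1 := Prod.ext_iff.1 (tau δ p)
  have h2 := Prod.ext_iff.1 (tau δ p')
  simp only at h1 h2
  have h3 : lam δ p * dt (vec (sig δ p)) (vec p') =
      - (lam δ p' * dt (vec p) (vec (sig δ p'))) := by
    unfold dt
    linear_combination (-(vec p').2) * h1.1 + ((vec p').1) * h1.2 - ((vec p).1) * h2.2 +
      ((vec p).2) * h2.1
  have h5 := congrArg (quadraticChar F) h3
  rw [chi_neg h4, map_mul, map_mul] at h5
  exact h5

/-- one point of each pair -/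
abbrev R : Type := {p : Option F // Fintype.equivFin (Option F) p <
  Fintype.equivFin (Option F) (sig δ p)}

theorem sum_R (h4 : Fintype.card F % 4 = 1) (hδ : quadraticChar F δ = -1) (f : Option F → ℤ) :
    ∑ p, f p = ∑ z : R δ, (f z + f (sig δ z)) := by
  have hδ0 : δ ≠ 0 := by rintro rfl; simp at hδ
  rw [← Fintype.sum_subtype_add_sum_subtype (fun p : Option F => Fintype.equivFin (Option F) p <
    Fintype.equivFin (Option F) (sig δ p)) f, sum_add_distrib]
  congr 1
  have key : ∀ p : Option F, Fintype.equivFin (Option F) p < Fintype.equivFin (Option F) (sig δ p)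
      ↔ ¬ Fintype.equivFin (Option F) (sig δ p) <
        Fintype.equivFin (Option F) (sig δ (sig δ p)) := by
    intro p
    rw [sig_sig δ hδ0, not_lt]
    constructor
    · exact fun h => h.le
    · intro h
      refine lt_of_le_of_ne h fun h' => ?_
      exact sig_ne δ h4 hδ p ((Fintype.equivFin (Option F)).injective h').symm
  let e : R δ ≃ {p : Option F // ¬ Fintype.equivFin (Option F) p <
      Fintype.equivFin (Option F) (sig δ p)} :=
    { toFun := fun z => ⟨sig δ z, (key z).1 z.2⟩
      invFun := fun z => ⟨sig δ z, (key _).2 (by rw [sig_sig δ hδ0]; exact z.2)⟩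
      left_inv := fun z => by ext1; exact sig_sig δ hδ0 _
      right_inv := fun z => by ext1; exact sig_sig δ hδ0 _ }
  exact (Equiv.sum_comp e (fun z => f z)).symm

theorem card_R (h4 : Fintype.card F % 4 = 1) (hδ : quadraticChar F δ = -1) :
    2 * (Fintype.card (R δ) : ℤ) = Fintype.card F + 1 := by
  have h := sum_R δ h4 hδ (fun _ => 1)
  simp only [sum_const, card_univ, nsmul_eq_mul, mul_one, Fintype.card_option] at h
  push_cast at h
  linarith

theorem R_ne (hδ : δ ≠ 0) (x y : R δ) : (x : Option F) ≠ sig δ y := by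
  intro h
  have hx := x.2
  have hy := y.2
  rw [h, sig_sig δ hδ] at hx
  exact lt_asymm hx hy

/-- the data -/
noncomputable def fieldData (h4 : Fintype.card F % 4 = 1) (hδ : quadraticChar F δ = -1)
    {n : ℕ} (hn : 2 * n = Fintype.card F + 1) (e : R δ ≃ Fin n) (S : Fin n → Fin n → ℤ)
    (hS : Pool.Agent.Y342.SK.IsCore S) : Data (R δ) where
  D x y := S (e x) (e y)
  A x y := C (x : Option F) y
  B x y := sn δ y * C (x : Option F) (sig δ y)
  n := n
  D0 x := hS.diag _
  D1 x y hxy := hS.sign _ _ fun h => hxy (e.injective h)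
  Ds x y := hS.skew _ _
  Dr x := by rw [Equiv.sum_comp e (fun z => S (e x) z)]; exact hS.row _
  DD x y := by
    rw [Equiv.sum_comp e (fun z => S (e x) z * S (e y) z), hS.mul]
    by_cases h : x = y
    · subst h; simp
    · have : e x ≠ e y := fun h' => h (e.injective h')
      simp [h, this]
  A0 x := C_self _
  A1 x y hxy := C_ne fun h => hxy (Subtype.ext h)
  B1 x y := by
    have hδ0 : δ ≠ 0 := by rintro rfl; simp at hδ
    rcases sn_cases δ hδ0 (y : Option F) with h | h <;>
      rcases C_ne (R_ne δ hδ0 x y) with h' | h' <;> rw [h, h'] <;> norm_num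
  As x y := C_symm h4 _ _
  Bs x y := by
    rw [C_symm h4 (sig δ x) y]
    exact rel2 δ h4 _ _
  AB x y := by
    have hδ0 : δ ≠ 0 := by rintro rfl; simp at hδ
    have h1 := C_mul h4 (x : Option F) y
    rw [sum_R δ h4 hδ] at h1
    rw [← sum_add_distrib]
    have h2 : ∀ z : R δ, C (x : Option F) z * C (y : Option F) z +
        (sn δ z * C (x : Option F) (sig δ z)) * (sn δ z * C (y : Option F) (sig δ z)) =
        C (x : Option F) z * C (y : Option F) z +
          C (x : Option F) (sig δ z) * C (y : Option F) (sig δ z) := by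
      intro z
      have := sn_sq δ hδ0 (z : Option F)
      linear_combination (C (x : Option F) (sig δ z) * C (y : Option F) (sig δ z)) * this
    rw [sum_congr rfl fun z _ => h2 z, h1]
    have hn' : (2 * n : ℤ) - 1 = Fintype.card F := by
      have : (2 * n : ℤ) = Fintype.card F + 1 := by exact_mod_cast hn
      linarith
    by_cases h : x = y
    · subst h; simp [hn']
    · have h' : (x : Option F) ≠ y := fun h' => h (Subtype.ext h')
      simp [h, h']
  BA x y := by
    have hδ0 : δ ≠ 0 := by rintro rfl; simp at hδ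
    have h1 := C_mul h4 (x : Option F) (sig δ y)
    rw [if_neg (R_ne δ hδ0 x y), sum_R δ h4 hδ] at h1
    rw [← sub_eq_zero, ← sum_sub_distrib]
    have h2 : ∀ z : R δ, C (x : Option F) z * (sn δ z * C (y : Option F) (sig δ z)) -
        (sn δ z * C (x : Option F) (sig δ z)) * C (y : Option F) z =
        sn δ y * (C (x : Option F) z * C (sig δ (y : Option F)) z +
          C (x : Option F) (sig δ z) * C (sig δ (y : Option F)) (sig δ z)) := by
      intro z
      have e1 := rel2 δ h4 (y : Option F) z
      have e2 := rel1 δ hδ (y : Option F) z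
      have e3 := sn_sq δ hδ0 (y : Option F)
      have e4 := sn_sq δ hδ0 (z : Option F)
      rw [e2]
      linear_combination (-(C (x : Option F) z)) * e1 +
        (sn δ z * C (x : Option F) (sig δ z) * C (y : Option F) z) * e3
    rw [sum_congr rfl fun z _ => h2 z, ← mul_sum, h1, mul_zero]
  hcard := by
    have h := card_R δ h4 hδ
    have : (2 * n : ℤ) = Fintype.card F + 1 := by exact_mod_cast hn
    linarith

/-- the theorem of Miyamoto and Yamada: a field with `q = 1 mod 4` elements and a skew core of order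
`(q + 1) / 2` give a Hadamard matrix of order `4 (q + 2)` -/
theorem yamada (h4 : Fintype.card F % 4 = 1) {n : ℕ} (hn : 2 * n = Fintype.card F + 1)
    (S : Fin n → Fin n → ℤ) (hS : Pool.Agent.Y342.SK.IsCore S) :
    HasHad (4 * (Fintype.card F + 2)) := by
  obtain ⟨δ, hδ⟩ := quadraticChar_exists_neg_one (char_ne_two h4)
  have hc := card_R δ h4 hδ
  have hc' : Fintype.card (R δ) = n := by
    have : (2 * n : ℤ) = Fintype.card F + 1 := by exact_mod_cast hn
    have h2 : (Fintype.card (R δ) : ℤ) = n := by linarith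
    exact_mod_cast h2
  let e : R δ ≃ Fin n := Fintype.equivFinOfCardEq hc'
  apply (fieldData δ h4 hδ hn e S hS).hasHad
  show ((4 * (Fintype.card F + 2) : ℕ) : ℤ) = 4 * (2 * (n : ℤ) + 1)
  have : (2 * n : ℤ) = Fintype.card F + 1 := by exact_mod_cast hn
  push_cast
  linarith

end field

open Pool.Agent.W851.Had (tow)

/-- prime powers `q = -3` modulo a huge power of two -/
theorem main_yamada : ∃ C : ℕ, 2 ≤ C ∧ ∀ n q t : ℕ, IsPrimePow q → q ≤ tow n →
    2 ^ C ^ (n + 1) ≤ t → 2 ^ (t + 1) ∣ q + 3 → HasHad (4 * (q + 2)) := by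
  obtain ⟨C, hC, hm⟩ := Pool.Agent.Y342.SK.main_skew
  refine ⟨C, hC, fun n q t hq hqn ht hdv => ?_⟩
  have hq2 : 2 ≤ q := hq.two_le
  obtain ⟨m, hm'⟩ := hdv
  have hhalf : q + 3 = 2 * (2 ^ t * m) := by rw [hm', pow_succ]; ring
  obtain ⟨v, hv⟩ : ∃ v, 2 ^ t * m = v + 1 := ⟨2 ^ t * m - 1, by omega⟩
  have hv2 : 2 * v = q + 1 := by omega
  obtain ⟨S, hS⟩ := Pool.Agent.Y342.SK.core_of (n := n) (v := v) hm (by omega) ht ⟨m, hv.symm⟩
  obtain ⟨p, k, hp, hk, rfl⟩ := hq
  have hp' : p.Prime := hp.nat_prime
  have : Fact p.Prime := ⟨hp'⟩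
  have : Fintype (GaloisField p k) := Fintype.ofFinite _
  have hcard : Fintype.card (GaloisField p k) = p ^ k := by
    rw [← Nat.card_eq_fintype_card, GaloisField.card p k (by omega)]
  classical
  have ht1 : 1 ≤ t := le_trans Nat.one_le_two_pow ht
  have h4 : p ^ k % 4 = 1 := by
    have h5 : 2 ^ t = 2 * 2 ^ (t - 1) := by
      conv_lhs => rw [show t = 1 + (t - 1) by omega, pow_add, pow_one]
    rw [h5, mul_assoc] at hhalf
    omega
  have h6 := yamada (F := GaloisField p k) (by rw [hcard]; exact h4) (n := v)
    (by rw [hcard]; exact hv2) S hS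
  rwa [hcard] at h6

end Pool.Agent.Q245.Yam
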