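import Mathlib
import Pool.Agent.TH432.Had.Miya

/-!
# Hadamard matrices of order `4 (2 n + 1)` from a skew core of order `n` and a conference matrix of
order `2 n` with blocks `A, B; B, -A`
-/

set_option autoImplicit false
set_option maxHeartbeats 4000000

namespace Pool.Agent.Q245.Yam

open Finset Matrix
open Pool.Agent.H108R3.Had (HasHad)
open Pool.Agent.TH432.Had (had_reindex sg sg_sq sg_cases)

/-- the data used by the construction -/
structure Data (α : Type) [Fintype α] [DecidableEq α] where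
  /-- skew core -/
  D : α → α → ℤ
  /-- diagonal block of the conference matrix -/
  A : α → α → ℤ
  /-- off-diagonal block of the conference matrix -/
  B : α → α → ℤ
  n : ℤ
  D0 : ∀ x, D x x = 0
  D1 : ∀ x y, x ≠ y → D x y = 1 ∨ D x y = -1
  Ds : ∀ x y, D y x = - D x y
  Dr : ∀ x, ∑ y, D x y = 0
  DD : ∀ x y, ∑ z, D x z * D y z = (if x = y then n else 0) - 1
  A0 : ∀ x, A x x = 0
  A1 : ∀ x y, x ≠ y → A x y = 1 ∨ A x y = -1
  B1 : ∀ x y, B x y = 1 ∨ B x y = -1
  As : ∀ x y, A y x = A x y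
  Bs : ∀ x y, B y x = B x y
  AB : ∀ x y, ∑ z, A x z * A y z + ∑ z, B x z * B y z = if x = y then 2 * n - 1 else 0
  BA : ∀ x y, ∑ z, A x z * B y z = ∑ z, B x z * A y z
  hcard : (Fintype.card α : ℤ) = n

/-- the Hadamard matrix of order two -/
def h2 (s s' : Bool) : ℤ := if s = true ∧ s' = true then -1 else 1

/-- the rotated Hadamard matrix of order two -/
def m2 (s s' : Bool) : ℤ := if s = false ∧ s' = true then -1 else 1

namespace Data

variable {α : Type} [Fintype α] [DecidableEq α] (D : Data α)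

/-- the inner weighing matrix -/
def V : (Bool × Bool) × α → (Bool × Bool) × α → ℤ
  | ((false, s), x), ((false, s'), y) => if s = s' then sg s * D.A x y else D.B x y
  | ((false, s), x), ((true, s'), y) => if x = y then h2 s s' else 0
  | ((true, s), x), ((false, s'), y) => if x = y then m2 s s' else 0
  | ((true, s), x), ((true, s'), y) => if s = s' then - D.A x y else sg s * D.B x y

/-- the matrix with the skew core -/
def U : (Bool × Bool) × α → (Bool × Bool) × α → ℤ
  | ((p, s), x), ((p', s'), y) =>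
    if p = p' then (if s = s' then (if x = y then 1 else 0) else 0) else h2 s s' * D.D x y

theorem UU (r r' : (Bool × Bool) × α) : ∑ z, D.U r z * D.U r' z =
    if r.1 = r'.1 then (if r.2 = r'.2 then 2 * D.n + 1 else 0) - 2 else 0 := by
  obtain ⟨⟨p, s⟩, x⟩ := r
  obtain ⟨⟨p', s'⟩, x'⟩ := r'
  have hDD := D.DD x x'
  have hs := D.Ds x x'
  rw [Fintype.sum_prod_type, Fintype.sum_prod_type]
  simp only [Fintype.sum_bool]
  by_cases hx : x = x'
  · subst hx
    have h0 := D.D0 x
    simp only [if_true] at hDD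
    cases p <;> cases s <;> cases p' <;> cases s' <;>
      simp [U, h2, hDD, h0] <;> ring
  · have hx' : x' ≠ x := fun h => hx h.symm
    simp only [hx, if_false] at hDD
    cases p <;> cases s <;> cases p' <;> cases s' <;>
      simp [U, h2, hDD, hx, hx', hs] <;> ring

theorem VV (r r' : (Bool × Bool) × α) : ∑ z, D.V r z * D.V r' z =
    if r = r' then 2 * D.n + 1 else 0 := by
  obtain ⟨⟨p, s⟩, x⟩ := r
  obtain ⟨⟨p', s'⟩, x'⟩ := r'
  have hAB := D.AB x x'
  have hBA := D.BA x x'
  have hAs := D.As x x'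
  have hBs := D.Bs x x'
  rw [Fintype.sum_prod_type, Fintype.sum_prod_type]
  simp only [Fintype.sum_bool]
  by_cases hx : x = x'
  · subst hx
    simp only [if_true] at hAB
    cases p <;> cases s <;> cases p' <;> cases s' <;>
      simp [V, h2, m2, sg] <;> first | linarith | (ring_nf; linarith) | skip
  · have hx' : x' ≠ x := fun h => hx h.symm
    simp only [hx, if_false] at hAB
    cases p <;> cases s <;> cases p' <;> cases s' <;>
      simp [V, h2, m2, sg, hx, hx', hAs, hBs] <;> first | linarith | (ring_nf; linarith) | skip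

/-- the inner part -/
def X (r r' : Bool × ((Bool × Bool) × α)) : ℤ := D.U r.2 r'.2 + sg r.1 * sg r'.1 * D.V r.2 r'.2

/-- the Hadamard matrix of order four -/
def h4 (i l : Bool × Bool) : ℤ := h2 i.1 l.1 * h2 i.2 l.2

/-- corner -/
def F (i l : Bool × Bool) : ℤ := h4 i l * (if l = (false, false) then -1 else 1)

/-- value of the border rows -/
def y4 (i j : Bool × Bool) : ℤ := if i = j then -1 else 1

/-- the matrix -/
def M : (Bool × Bool) ⊕ (Bool × ((Bool × Bool) × α)) →
    (Bool × Bool) ⊕ (Bool × ((Bool × Bool) × α)) → ℤ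
  | Sum.inl i, Sum.inl j => F i j
  | Sum.inl i, Sum.inr r => y4 i r.2.1
  | Sum.inr r, Sum.inl j => h4 r.2.1 j
  | Sum.inr r, Sum.inr r' => D.X r r'

theorem XX (r r' : Bool × ((Bool × Bool) × α)) : ∑ z, D.X r z * D.X r' z =
    2 * (if r.2.1 = r'.2.1 then (if r.2.2 = r'.2.2 then 2 * D.n + 1 else 0) - 2 else 0)
      + 2 * (sg r.1 * sg r'.1) * (if r.2 = r'.2 then 2 * D.n + 1 else 0) := by
  have h1 : ∑ z, D.X r z * D.X r' z = ∑ z : (Bool × Bool) × α, (2 * (D.U r.2 z * D.U r'.2 z)
      + 2 * (sg r.1 * sg r'.1) * (D.V r.2 z * D.V r'.2 z)) := by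
    rw [Fintype.sum_prod_type, sum_comm]
    refine sum_congr rfl fun y _ => ?_
    rw [Fintype.sum_bool]
    simp only [X, sg]
    simp only [if_true, Bool.false_eq_true, if_false]
    ring
  rw [h1, sum_add_distrib, ← mul_sum, ← mul_sum, UU, VV]

theorem XU (r : Bool × ((Bool × Bool) × α)) (f : Bool × Bool → ℤ) :
    ∑ z, f z.2.1 * D.X r z = 2 * f r.2.1 := by
  have h1 : ∑ z, f z.2.1 * D.X r z = ∑ z : (Bool × Bool) × α, 2 * (f z.1 * D.U r.2 z) := by
    rw [Fintype.sum_prod_type, sum_comm]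
    refine sum_congr rfl fun y _ => ?_
    rw [Fintype.sum_bool]
    simp only [X, sg]
    simp only [if_true, Bool.false_eq_true, if_false]
    ring
  rw [h1, ← mul_sum]
  congr 1
  obtain ⟨ε, ⟨p, s⟩, x⟩ := r
  have hr := D.Dr x
  rw [Fintype.sum_prod_type, Fintype.sum_prod_type]
  simp only [Fintype.sum_bool]
  cases p <;> cases s <;> simp [U, h2, ← mul_sum, hr]

theorem main_row (p p' : (Bool × Bool) ⊕ (Bool × ((Bool × Bool) × α))) :
    ∑ z, D.M p z * D.M p' z = if p = p' then 4 * (2 * D.n + 1) else 0 := by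
  rw [Fintype.sum_sum_type]
  rcases p with i | r <;> rcases p' with j | r'
  · -- border, border
    simp only [M]
    have h1 : ∑ z : Bool × ((Bool × Bool) × α), y4 i z.2.1 * y4 j z.2.1 =
        2 * D.n * ∑ b : Bool × Bool, y4 i b * y4 j b := by
      rw [Fintype.sum_prod_type]
      simp only [Fintype.sum_bool]
      rw [Fintype.sum_prod_type]
      simp only [sum_const, card_univ, nsmul_eq_mul, D.hcard]
      rw [← mul_sum]
      ring
    rw [h1]
    simp only [Fintype.sum_prod_type, Fintype.sum_bool, Sum.inl.injEq]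
    obtain ⟨i1, i2⟩ := i
    obtain ⟨j1, j2⟩ := j
    cases i1 <;> cases i2 <;> cases j1 <;> cases j2 <;> simp [F, y4, h4, h2] <;> ring
  · -- border, inner
    simp only [M, reduceCtorEq, if_false]
    rw [D.XU r' (fun b => y4 i b)]
    simp only [Fintype.sum_prod_type, Fintype.sum_bool]
    obtain ⟨ε, ⟨j1, j2⟩, x⟩ := r'
    obtain ⟨i1, i2⟩ := i
    cases i1 <;> cases i2 <;> cases j1 <;> cases j2 <;> simp [F, y4, h4, h2]
  · -- inner, border
    simp only [M, reduceCtorEq, if_false]
    have h1 : ∑ z, D.X r z * y4 j z.2.1 = ∑ z, y4 j z.2.1 * D.X r z :=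
      sum_congr rfl fun z _ => mul_comm _ _
    rw [h1, D.XU r (fun b => y4 j b)]
    simp only [Fintype.sum_prod_type, Fintype.sum_bool]
    obtain ⟨ε, ⟨i1, i2⟩, x⟩ := r
    obtain ⟨j1, j2⟩ := j
    cases i1 <;> cases i2 <;> cases j1 <;> cases j2 <;> simp [F, y4, h4, h2]
  · -- inner, inner
    simp only [M]
    rw [D.XX]
    simp only [Fintype.sum_prod_type, Fintype.sum_bool, Sum.inr.injEq]
    obtain ⟨ε, ⟨i1, i2⟩, x⟩ := r
    obtain ⟨ε', ⟨j1, j2⟩, x'⟩ := r'
    simp only [Prod.mk.injEq]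
    by_cases hx : x = x'
    · subst hx
      cases ε <;> cases ε' <;> cases i1 <;> cases i2 <;> cases j1 <;> cases j2 <;>
        simp [sg, h4, h2] <;> ring
    · cases ε <;> cases ε' <;> cases i1 <;> cases i2 <;> cases j1 <;> cases j2 <;>
        simp [sg, h4, h2, hx]

theorem M_sign (p p' : (Bool × Bool) ⊕ (Bool × ((Bool × Bool) × α))) :
    D.M p p' = 1 ∨ D.M p p' = -1 := by
  rcases p with i | r <;> rcases p' with j | r'
  · obtain ⟨i1, i2⟩ := i
    obtain ⟨j1, j2⟩ := j
    cases i1 <;> cases i2 <;> cases j1 <;> cases j2 <;> simp [M, F, h4, h2]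
  · simp only [M, y4]
    split_ifs <;> simp
  · obtain ⟨ε, ⟨i1, i2⟩, x⟩ := r
    obtain ⟨j1, j2⟩ := j
    cases i1 <;> cases i2 <;> cases j1 <;> cases j2 <;> simp [M, h4, h2]
  · simp only [M, X]
    obtain ⟨ε, ⟨i1, i2⟩, x⟩ := r
    obtain ⟨ε', ⟨j1, j2⟩, x'⟩ := r'
    have hss : sg ε * sg ε' = 1 ∨ sg ε * sg ε' = -1 := by
      rcases sg_cases ε with h | h <;> rcases sg_cases ε' with h' | h' <;> rw [h, h'] <;> norm_num
    generalize sg ε * sg ε' = w at hss ⊢
    by_cases hx : x = x'
    · subst hx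
      have h0 := D.D0 x
      have h1 := D.A0 x
      have h3 := D.B1 x x
      rcases hss with h | h <;> rcases h3 with h3 | h3 <;> subst h <;>
      cases i1 <;> cases i2 <;> cases j1 <;> cases j2 <;>
        simp [U, V, h2, m2, sg, h0, h1, h3]
    · have h0 := D.D1 x x' hx
      have h1 := D.A1 x x' hx
      have h3 := D.B1 x x'
      rcases hss with h | h <;> rcases h3 with h3 | h3 <;> rcases h1 with h1 | h1 <;>
        rcases h0 with h0 | h0 <;> subst h <;>
      cases i1 <;> cases i2 <;> cases j1 <;> cases j2 <;>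
        simp [U, V, h2, m2, sg, h0, h1, h3, hx]

theorem hasHad (n : ℕ) (hn : (n : ℤ) = 4 * (2 * D.n + 1)) : HasHad n := by
  apply had_reindex (ι := (Bool × Bool) ⊕ (Bool × ((Bool × Bool) × α))) _ D.M D.M_sign
  · intro p p'
    rw [D.main_row, hn]
  · have h := D.hcard
    simp only [Fintype.card_sum, Fintype.card_prod, Fintype.card_bool]
    zify
    linarith

end Data

end Pool.Agent.Q245.Yam
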